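import Pool.Agent.H89.FLT.SlimConv
import Pool.Agent.H29.FL4.All

/-!
# MP_e1ba20: the growth of the number of compact flats for `SL_4`

`X = Γ \ SL_4(ℝ) / SO(4)`, `Γ` of finite index in `SL_4(ℤ)`.

* `E` with the coordinates `x` is the Lie algebra of the group `A` of positive diagonal matrices of
  determinant one (`Lie x`: the vectors of sum zero with the Euclidean norm), `volume` its Euclidean volume.
* `flat Γ x g B` is `Γ g exp(B) SO(4)`, a subset of `SL_4(ℝ)` invariant under `Γ` on the left and
  `SO(4)` on the right, that is, a subset of `X`; `flat Γ x g Set.univ` is the flat `Γ g A SO(4)`.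
* `flats Γ x T` is the set of the compact flats of volume `< T`.
-/

set_option autoImplicit false

namespace Pool.Agent.Results.MP_e1ba20_an.DegreeFour

open Pool.FLT.Slim Matrix

/-- **The order of growth of the number of compact flats for `SL_4`.** Let `Γ` be a subgroup of finite
index of `SL_4(ℤ)`. For all large `T` the number of compact flats of volume less than `T` of
`Γ \ SL_4(ℝ) / SO(4)` is finite, at least `exp (c T ^ (1 / 2))` and at most `exp (C T ^ (1 / 2))`. -/
theorem result {E : Type} [NormedAddCommGroup E] [InnerProductSpace ℝ E] [FiniteDimensional ℝ E]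
    [MeasurableSpace E] [BorelSpace E] (x : E → Fin 4 → ℝ) (hx : Lie x)
    (Γ : Subgroup (SpecialLinearGroup (Fin 4) ℤ)) (hΓ : Γ.index ≠ 0) :
    ∃ c C T₀ : ℝ, 0 < c ∧ 0 < C ∧ ∀ T : ℝ, T₀ ≤ T → (flats Γ x T).Finite ∧
      Real.exp (c * T ^ (1 / 2 : ℝ)) ≤ (flats Γ x T).ncard ∧
      (flats Γ x T).ncard ≤ Real.exp (C * T ^ (1 / 2 : ℝ)) := by
  simp only [flats_eq Γ x hx]
  exact Pool.FL4.exact4All Γ hΓ

end Pool.Agent.Results.MP_e1ba20_an.DegreeFour
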