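import Pool.Agent.H89.FLT.SlimConv

/-!
# MP_e1ba20: the growth of the number of compact flats

`X = Γ \ SL_n(ℝ) / SO(n)`, `Γ` of finite index in `SL_n(ℤ)`, `n ≥ 2`.

* `E` with the coordinates `x` is the Lie algebra of the group `A` of positive diagonal matrices of
  determinant one (`Lie x`: the vectors of sum zero with the Euclidean norm), `volume` its Euclidean volume.
* `flat Γ x g B` is `Γ g exp(B) SO(n)`, a subset of `SL_n(ℝ)` invariant under `Γ` on the left and
  `SO(n)` on the right, that is, a subset of `X`; `flat Γ x g Set.univ` is the flat `Γ g A SO(n)`.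
* `flats Γ x T` is the set of the compact flats of volume `< T`.
-/

set_option autoImplicit false

namespace Pool.Agent.Results.MP_e1ba20_an.GrowthOfFlats

open Pool.FLT.Slim Matrix

/-- **Growth of the number of compact flats.** Let `n ≥ 2`, let `p` be the smallest prime factor of `n`
and let `Γ` be a subgroup of finite index of `SL_n(ℤ)`. For all large `T` the number of compact flats
of volume less than `T` of `Γ \ SL_n(ℝ) / SO(n)` is finite, at least `exp (c T ^ (1 / (n - 1)))` and at
most `exp (C T ^ (1 / (n - n / p)))`. For `n` prime the two exponents are equal. -/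
theorem result {n : ℕ} {E : Type} [NormedAddCommGroup E] [InnerProductSpace ℝ E]
    [FiniteDimensional ℝ E] [MeasurableSpace E] [BorelSpace E] (x : E → Fin n → ℝ) (hx : Lie x)
    (hn : 2 ≤ n) (Γ : Subgroup (SpecialLinearGroup (Fin n) ℤ)) (hΓ : Γ.index ≠ 0) :
    ∃ c C T₀ : ℝ, 0 < c ∧ 0 < C ∧ ∀ T : ℝ, T₀ ≤ T → (flats Γ x T).Finite ∧
      Real.exp (c * T ^ (1 / ((n : ℝ) - 1))) ≤ (flats Γ x T).ncard ∧
      (flats Γ x T).ncard ≤ Real.exp (C * T ^ (1 / ((n - n / n.minFac : ℕ) : ℝ))) := by
  simp only [flats_eq Γ x hx]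
  exact Pool.FLT.finAll n hn Γ hΓ

end Pool.Agent.Results.MP_e1ba20_an.GrowthOfFlats
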