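import Pool.Agent.H29.HMF.GDefs
import Pool.Agent.H29.HMF.All

/-!
# MP_e1ba20: the growth of the number of compact flats of Hilbert modular surfaces

`X = Γ \ (SL_2(ℝ) × SL_2(ℝ)) / (SO(2) × SO(2)) = Γ \ (ℍ × ℍ)`, `Γ` of finite index in `SL_2(ℤ[√2])`, an
irreducible space of real rank two. A family `g : Fin 2 → SL_2(ℝ)` is a point of `SL_2(ℝ) × SL_2(ℝ)`.

* `flat Γ g B` is `Γ g exp(B) (SO(2) × SO(2))`, where `v ∈ ℝ²` stands for the pair of the diagonal
  matrices with entries `e^(v i), e^(-v i)`; `flat Γ g Set.univ` is the flat `Γ g A (SO(2) × SO(2))`.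
* `flats Γ T` is the set of the compact flats of area `< T`.
-/

set_option autoImplicit false

namespace Pool.Agent.Results.MP_e1ba20_an.HilbertModular

open Pool.HMG

/-- **The order of growth of the number of compact flats of Hilbert modular surfaces.** Let `Γ` be a
subgroup of finite index of `SL_2(ℤ[√2])`. For all large `T` the number of compact flats of area less than
`T` of `Γ \ (ℍ × ℍ)` is finite, at least `exp (c T ^ (1 / 2))` and at most `exp (C T ^ (1 / 2))`. -/
theorem result (Γ : Subgroup HM) (hΓ : Γ.index ≠ 0) :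
    ∃ c C T₀ : ℝ, 0 < c ∧ 0 < C ∧ ∀ T : ℝ, T₀ ≤ T → (flats Γ T).Finite ∧
      Real.exp (c * T ^ (1 / 2 : ℝ)) ≤ (flats Γ T).ncard ∧
      (flats Γ T).ncard ≤ Real.exp (C * T ^ (1 / 2 : ℝ)) :=
  Pool.HMF.final Γ hΓ

end Pool.Agent.Results.MP_e1ba20_an.HilbertModular
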