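import Pool.Agent.H29.PRS.Final

/-!
# MP_e1ba20: the number of compact flats of a product of locally symmetric spaces

A locally symmetric space enters through its compact flats and their volumes (`FlatSpace`); `X.N T` is
the number of compact flats of volume `< T`, `X.mult s` the number of those of volume `s`. The compact
flats of `X × Y` are the products `F × F'`, of volume `vol F * vol F'` (`FlatSpace.prod`).
-/

set_option autoImplicit false

open Filter Topology

namespace Pool.Agent.Results.MP_e1ba20_an.ProductSpaces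

open Pool.PRS

/-- **The main term for a product.** Let `s`, `σ` be the least volumes of the compact flats of `X`, `Y`
and let `N_X(x) x e^(-h x) → κ`, `h > 0`. If `N_Y(x) ≤ C e^(g x)` with `g σ < h s`, then
`N_(X × Y)(T) ~ κ σ m_Y e^(h T / σ) / T`, `m_Y` the number of compact flats of `Y` of volume `σ`. If
`N_Y(x) x e^(-g x) → l` with `g σ = h s`, the constant is `κ σ m_Y + l s m_X`. -/
theorem result (X Y : FlatSpace) (s σ h κ : ℝ) (hs : IsLeast (Set.range X.vol) s)
    (hσ : IsLeast (Set.range Y.vol) σ) (hh : 0 < h)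
    (hX : Tendsto (fun x => X.N x * x * Real.exp (-(h * x))) atTop (𝓝 κ)) :
    (∀ g : ℝ, g * σ < h * s → (∃ C : ℝ, ∀ x : ℝ, 0 ≤ x → Y.N x ≤ C * Real.exp (g * x)) →
      Tendsto (fun T => (X.prod Y).N T * T * Real.exp (-(h / σ * T))) atTop
        (𝓝 (κ * σ * Y.mult σ))) ∧
    (∀ g l : ℝ, g * σ = h * s → Tendsto (fun x => Y.N x * x * Real.exp (-(g * x))) atTop (𝓝 l) →
      Tendsto (fun T => (X.prod Y).N T * T * Real.exp (-(h / σ * T))) atTop
        (𝓝 (κ * σ * Y.mult σ + l * s * X.mult s))) :=
  Pool.PRS.final X Y s σ h κ hs hσ hh hX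

end Pool.Agent.Results.MP_e1ba20_an.ProductSpaces
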